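import Pool.Agent.H46QF.Cnt
import Pool.Agent.H46QF.GFld

/-!
# The uniform abc inequality for the points which generate almost all number fields

For a number field `K` and `x ∈ K`, let `H`, `N` be the height and the conductor of the triple `(x, 1 - x, -1)` and `δ` the
root discriminant of `K`. The uniform abc inequality is `H ≤ C (δ N) ^ (1 + ε)`, for all `K` and all `x`. We study the
generators `x` of `K`. For all but `O(X ^ (1 - ε / (2 n)))` of the fields `K` of degree `n` with `|D_K| ≤ X`, all the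
generators `x` of `K` with `log H ≤ (log δ) ^ (2 - ε)` satisfy `N H ^ (n - 2) ≥ δ ^ (1 - ε / n)`.

For quadratic fields (`n = 2`; there are at least `X / 32` real ones): `N ≥ δ ^ (1 - ε / 2)`. The exponent one of `δ` is the
best possible for every real quadratic field. In particular `H ≤ δ N` for all irrational `x` with `H ≤ δ ^ (2 - ε / 2)`.

Method: the coefficients of the minimal polynomial `F` of `x / (1 - x)`; `N ^ n` is at least the product of the radicals of
the leading coefficient, of `F(0)` and of `F(-1)`. The number of the triples of integers of size at most `M` for which the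
product of the radicals is at most `P` is at most `P exp(C (log M) ^ (1 / 2 + ε))`. Each `x` generates only one field.
-/

set_option autoImplicit false

namespace Pool.Agent.Results.MP_6e34ef_nt.AlmostAllFields

open NumberField IsDedekindDomain

section Defs

variable {K : Type} [Field K] [NumberField K]

/-- `log H(x_0, x_1, x_2)` -/
noncomputable def height (x : Fin 3 → K) : ℝ :=
  (∑ w : InfinitePlace K, (w.mult : ℝ) * Real.log (max (w (x 0)) (max (w (x 1)) (w (x 2)))) +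
    ∑ᶠ v : HeightOneSpectrum (𝓞 K), Real.log
      (max (FinitePlace.mk v (x 0)) (max (FinitePlace.mk v (x 1)) (FinitePlace.mk v (x 2))))) /
    (Module.finrank ℚ K : ℝ)

/-- `log N(x_0, x_1, x_2)` -/
noncomputable def conductor (x : Fin 3 → K) : ℝ :=
  (∑ᶠ (v : HeightOneSpectrum (𝓞 K)) (_ : ¬ (FinitePlace.mk v (x 0) = FinitePlace.mk v (x 1) ∧
      FinitePlace.mk v (x 1) = FinitePlace.mk v (x 2))),
    Real.log (Ideal.absNorm v.asIdeal : ℝ)) / (Module.finrank ℚ K : ℝ)

/-- `log H` for the triple `(x, 1 - x, -1)` -/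
noncomputable def H (x : K) : ℝ := height ![x, 1 - x, -1]

/-- `log N` for the triple `(x, 1 - x, -1)` -/
noncomputable def N (x : K) : ℝ := conductor ![x, 1 - x, -1]

variable (K) in
/-- `log δ_K` -/
noncomputable def rootDisc : ℝ := Real.log |(NumberField.discr K : ℝ)| / (Module.finrank ℚ K : ℝ)

/-- `x` generates the field `K` over `ℚ` (for quadratic `K`: `x` is irrational) -/
def Generates (x : K) : Prop := IntermediateField.adjoin ℚ {x} = ⊤

variable (K) in
/-- the elements `x` of `K` which generate `K` over `ℚ`, with `log H ≤ h` and `log N ≤ r` -/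
def Gens (h r : ℝ) : Set K := {x | Generates x ∧ H x ≤ h ∧ N x ≤ r}

variable (K) in
/-- The degree of `K` is `n`. For all `r ≥ 0` and `0 ≤ h ≤ (log δ) ^ (2 - ε)`, with `B = exp h` and `R = exp r`: the number
of the generators `x` of `K` with `H ≤ B` and `N ≤ R` is at most `R ^ n B ^ (n (n - 2)) δ ^ (-n + ε)`. -/
def Few (n : ℕ) (ε : ℝ) : Prop :=
  Module.finrank ℚ K = n ∧ ∀ h r : ℝ, 0 ≤ h → h ≤ rootDisc K ^ (2 - ε) → 0 ≤ r → (Gens K h r).Finite ∧
    ((Gens K h r).ncard : ℝ) ≤ Real.exp (n * (n - 2) * h + n * r - (n - ε) * rootDisc K)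

variable (K) in
/-- the elements `x` of `K` which generate `K` over `ℚ`, with `log H ≤ h`, which violate `H ≤ (δ N) ^ κ` -/
def Violators (κ h : ℝ) : Set K := {x | Generates x ∧ H x ≤ h ∧ κ * (rootDisc K + N x) < H x}

end Defs

/-- the number fields of degree `n` with `|D_K| ≤ X` and the property `P` -/
def Fields (n : ℕ) (X : ℝ) (P : ∀ (K : Type) [Field K] [NumberField K], Prop) :
    Set (IntermediateField ℚ (AlgebraicClosure ℚ)) :=
  {K | ∃ _ : NumberField K, Module.finrank ℚ K = n ∧ |(discr K : ℝ)| ≤ X ∧ P K}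

/-- the algebraic numbers `x` of degree `n` with `log H ≤ h` and `log N ≤ r`, in the field `ℚ(x)` -/
def Numbers (n : ℕ) (h r : ℝ) : Set (AlgebraicClosure ℚ) :=
  {x | ∃ (K : IntermediateField ℚ (AlgebraicClosure ℚ)) (_ : NumberField K) (t : K),
    (t : AlgebraicClosure ℚ) = x ∧ Module.finrank ℚ K = n ∧ t ∈ Gens K h r}

lemma height_nonneg {K : Type} [Field K] [NumberField K] (x : K) : 0 ≤ H x := by
  unfold H height
  apply div_nonneg _ (Nat.cast_nonneg _)
  apply add_nonneg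
  · apply Finset.sum_nonneg
    intro w _
    apply mul_nonneg (Nat.cast_nonneg _)
    apply Real.log_nonneg
    refine le_trans ?_ ((le_max_right _ _).trans (le_max_right _ _))
    have h1 : w (-1 : K) * w (-1 : K) = 1 := by
      rw [← map_mul]
      simp
    have h2 : 0 ≤ w (-1 : K) := apply_nonneg w _
    show 1 ≤ w (-1 : K)
    nlinarith
  · apply finsum_nonneg
    intro v
    apply Real.log_nonneg
    refine le_trans ?_ ((le_max_right _ _).trans (le_max_right _ _))
    simp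

lemma conductor_nonneg {K : Type} [Field K] [NumberField K] (x : K) : 0 ≤ N x :=
  Pool.Agent.W222.UABC.conductor_nonneg _

lemma few_of {K : IntermediateField ℚ (AlgebraicClosure ℚ)} [NumberField K] {n : ℕ} (hn : 2 ≤ n)
    (hK : Module.finrank ℚ K = n) {ε : ℝ} (h : Pool.Agent.H46QF.Few2 n ε K) : Few K n ε :=
  ⟨hK, fun T W hT hT2 hW => ⟨Pool.Agent.H46QF.genK_finite n hn K hK T W, h T W hT hT2 hW⟩⟩

theorem part_one (n : ℕ) (hn : 2 ≤ n) {ε : ℝ} (hε : 0 < ε) (hε1 : ε ≤ 1) : ∃ C : ℝ, ∀ X : ℝ, 1 ≤ X →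
    (Fields n X fun K _ _ => ¬ Few K n ε).Finite ∧
      ((Fields n X fun K _ _ => ¬ Few K n ε).ncard : ℝ) ≤ C * X ^ (1 - ε / (2 * n)) := by
  obtain ⟨C, _, h⟩ := Pool.Agent.H46QF.bad_card2 n hn hε hε1
  refine ⟨C, fun X hX => Pool.Agent.W222.UABC.ncard_le_of _ _ fun E hE => h X hX E fun K hK => ?_⟩
  obtain ⟨hnf, h1, h2, h3⟩ := hE (Finset.mem_coe.2 hK)
  exact ⟨hnf, h1, h2, fun h4 => h3 (few_of hn h1 h4)⟩

theorem part_two {K : Type} [Field K] [NumberField K] {n : ℕ} {ε : ℝ} (hF : Few K n ε) (x : K)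
    (hx : Generates x) (hh : H x ≤ rootDisc K ^ (2 - ε)) :
    (1 - ε / n) * rootDisc K ≤ N x + (n - 2) * H x := by
  obtain ⟨hn, hF⟩ := hF
  obtain ⟨h1, h2⟩ := hF _ _ (height_nonneg x) hh (conductor_nonneg x)
  have h3 : 1 ≤ (Gens K (H x) (N x)).ncard := by
    rw [Nat.one_le_iff_ne_zero, Ne, Set.ncard_eq_zero h1]
    intro h4
    have h5 : x ∈ Gens K (H x) (N x) := ⟨hx, le_rfl, le_rfl⟩
    rw [h4] at h5
    exact h5
  have h4 : (1 : ℝ) ≤ Real.exp (n * (n - 2) * H x + n * N x - (n - ε) * rootDisc K) := by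
    refine le_trans ?_ h2
    exact_mod_cast h3
  rw [Real.one_le_exp_iff] at h4
  have hn : (0 : ℝ) < n := by
    rw [← hn]
    exact_mod_cast Module.finrank_pos
  have h5 : (n : ℝ) * ((1 - ε / n) * rootDisc K) ≤ n * (N x + (n - 2) * H x) := by
    have h6 : (n : ℝ) * ((1 - ε / n) * rootDisc K) = (n - ε) * rootDisc K := by
      field_simp
    rw [h6]
    linarith
  exact le_of_mul_le_mul_left h5 hn

theorem part_three {K : Type} [Field K] [NumberField K] {n : ℕ} {ε κ : ℝ} (hκ : 0 < κ) (hF : Few K n ε) (h : ℝ)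
    (hh0 : 0 ≤ h) (hh : h ≤ rootDisc K ^ (2 - ε)) : (Violators K κ h).Finite ∧
    ((Violators K κ h).ncard : ℝ) ≤ Real.exp ((n / κ + n * (n - 2)) * h - (2 * n - ε) * rootDisc K) := by
  obtain ⟨hn, hF⟩ := hF
  have hsub : ∀ x ∈ Violators K κ h, x ∈ Gens K h (h / κ - rootDisc K) := by
    intro x hx
    obtain ⟨h1, h2, h3⟩ := hx
    refine ⟨h1, h2, ?_⟩
    have h4 : rootDisc K + N x ≤ h / κ := by
      rw [le_div_iff₀ hκ]
      linarith
    linarith
  rcases lt_or_ge (h / κ - rootDisc K) 0 with h0 | h0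
  · have h1 : Violators K κ h = ∅ := by
      rw [Set.eq_empty_iff_forall_notMem]
      intro x hx
      have h2 := (hsub x hx).2.2
      have h3 := conductor_nonneg x
      linarith
    rw [h1, Set.ncard_empty, Nat.cast_zero]
    exact ⟨Set.finite_empty, (Real.exp_pos _).le⟩
  · obtain ⟨h1, h2⟩ := hF h (h / κ - rootDisc K) hh0 hh h0
    have h3 : ((Violators K κ h).ncard : ℝ) ≤ ((Gens K h (h / κ - rootDisc K)).ncard : ℝ) := by
      exact_mod_cast Set.ncard_le_ncard hsub h1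
    refine ⟨h1.subset hsub, h3.trans (h2.trans (Real.exp_le_exp.2 (le_of_eq ?_)))⟩
    ring

lemma irr_gen {K : Type} [Field K] [NumberField K] (hK : Module.finrank ℚ K = 2) {x : K}
    (hx : ∀ q : ℚ, x ≠ algebraMap ℚ K q) : Generates x := by
  apply IntermediateField.eq_of_le_of_finrank_le le_top
  rw [IntermediateField.finrank_top', hK]
  have h1 : Module.finrank ℚ (IntermediateField.adjoin ℚ {x}) ≠ 1 := by
    intro h
    rw [IntermediateField.finrank_adjoin_simple_eq_one_iff, IntermediateField.mem_bot] at h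
    obtain ⟨q, hq⟩ := h
    exact hx q hq.symm
  have h2 : 0 < Module.finrank ℚ (IntermediateField.adjoin ℚ {x}) := Module.finrank_pos
  omega

theorem part_four : ∃ C : ℝ, ∀ (K : Type) [Field K] [NumberField K], Module.finrank ℚ K = 2 → 0 < discr K →
    (Gens K (rootDisc K / 2 + C) (rootDisc K + C)).Nonempty := by
  obtain ⟨C, _, h⟩ := Pool.Agent.H46QF.real_point
  refine ⟨C, fun K _ _ hK hpos => ?_⟩
  obtain ⟨x, h1, h2, h3⟩ := h K hK hpos
  exact ⟨x, irr_gen hK h1, h3, h2⟩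

theorem part_five (n : ℕ) (hn : 2 ≤ n) {θ : ℝ} (hθ : 1 / 2 < θ) : ∃ C : ℝ, ∀ h r : ℝ, 0 ≤ h →
    (Numbers n h r).Finite ∧
      ((Numbers n h r).ncard : ℝ) ≤ Real.exp (n * (n - 2) * h + n * r + C * (h + 1) ^ θ) := by
  obtain ⟨C, _, hC⟩ := Pool.Agent.H46QF.gen_card n hn hθ
  exact ⟨C, fun h r hh => Pool.Agent.W222.UABC.ncard_le_of _ _ fun E hE => hC h r E hh fun x hx =>
    hE (Finset.mem_coe.2 hx)⟩

theorem part_six : ∃ c C r₀ : ℝ, 0 < c ∧ ∀ r : ℝ, r₀ ≤ r → c * Real.exp (2 * r) ≤ ((Numbers 2 (r / 2 + C) r).ncard : ℝ) := by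
  obtain ⟨c, C, R0, hc, h⟩ := Pool.Agent.H46QF.low_many
  refine ⟨c, max C 0, Real.log (max R0 1), hc, fun r hr => ?_⟩
  have h1 : R0 ≤ Real.exp r := by
    refine (le_max_left R0 1).trans ?_
    rw [← Real.log_le_iff_le_exp (lt_of_lt_of_le one_pos (le_max_right _ _))]
    exact hr
  have h2 := h (Real.exp r) h1
  rw [Real.log_exp, ← Real.exp_nat_mul] at h2
  have hr0 : 0 ≤ r := (Real.log_nonneg (le_max_right _ _)).trans hr
  obtain ⟨D, hD⟩ := part_five 2 le_rfl (θ := 1) (by norm_num)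
  have h3 := hD (r / 2 + max C 0) r (by positivity)
  push_cast at h2
  refine h2.trans ?_
  have hsub : {x | Pool.Agent.H46QF.InLow (r / 2 + C) r x} ⊆ Numbers 2 (r / 2 + max C 0) r := by
    rintro x ⟨K, hn, t, k1, k2, k3, k4, k5⟩
    refine ⟨K, hn, t, k1, k2, irr_gen k2 k3, ?_, k5⟩
    have : r / 2 + C ≤ r / 2 + max C 0 := by
      have := le_max_left C 0
      linarith
    exact le_trans k4 this
  exact_mod_cast Set.ncard_le_ncard hsub h3.1

/-- **(1)** For `n ≥ 2` and `0 < ε ≤ 1`, all but `C X ^ (1 - ε / (2 n))` of the number fields `K` of degree `n` with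
`|D_K| ≤ X` have the property `Few`: for all `R ≥ 1` and all `B ≥ 1` with `log B ≤ (log δ) ^ (2 - ε)` the number of the
generators `x` of `K` with `H ≤ B` and `N ≤ R` is at most `R ^ n B ^ (n (n - 2)) δ ^ (-n + ε)`.

**(2)** If `K` has this property, then every generator `x` of `K` with `log H ≤ (log δ) ^ (2 - ε)` satisfies
`N H ^ (n - 2) ≥ δ ^ (1 - ε / n)`; the inequality `H ≤ (δ N) ^ κ` holds for every `κ > 0` if in addition
`H ^ (1 + κ (n - 2)) ≤ δ ^ ((2 - ε / n) κ)`; and the number of the generators `x` of `K` with `H ≤ B` which violate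
`H ≤ (δ N) ^ κ` is at most `B ^ (n / κ + n (n - 2)) δ ^ (-2 n + ε)`, if `log B ≤ (log δ) ^ (2 - ε)`.

**(3)** There are at least `X / 32` real quadratic fields with `D_K ≤ X`, for `X ≥ 1000`.

**(4)** Every real quadratic field `K` contains an irrational `x` with `H ≤ C δ ^ (1/2)` and `N ≤ C δ`.

**(5)** The number of all the algebraic numbers `x` of degree `n` with `H ≤ B` and `N ≤ R` is at most
`R ^ n B ^ (n (n - 2)) exp(C (1 + log B) ^ θ)`, for every `θ > 1/2`; for `n = 2` and large `R` the number of those with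
`H ≤ C R ^ (1/2)` and `N ≤ R` is at least `c R ^ 2`.

In particular (`n = 2`): in all but `C X ^ (1 - ε / 4)` of the quadratic fields with `|D_K| ≤ X`, all the irrational `x` with
`log H ≤ (log δ) ^ (2 - ε)` satisfy `N ≥ δ ^ (1 - ε / 2)`, and `H ≤ δ N` if also `H ≤ δ ^ (2 - ε / 2)`. -/
theorem result :
    (∀ n : ℕ, 2 ≤ n → ∀ ε : ℝ, 0 < ε → ε ≤ 1 → ∃ C : ℝ, ∀ X : ℝ, 1 ≤ X →
      (Fields n X fun K _ _ => ¬ Few K n ε).Finite ∧
        ((Fields n X fun K _ _ => ¬ Few K n ε).ncard : ℝ) ≤ C * X ^ (1 - ε / (2 * n))) ∧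
    (∀ (K : Type) [Field K] [NumberField K] (n : ℕ) (ε : ℝ), Few K n ε →
      (∀ x : K, Generates x → H x ≤ rootDisc K ^ (2 - ε) →
        (1 - ε / n) * rootDisc K ≤ N x + (n - 2) * H x ∧
        ∀ κ : ℝ, 0 < κ → (1 + κ * (n - 2)) * H x ≤ (2 - ε / n) * κ * rootDisc K → H x ≤ κ * (rootDisc K + N x)) ∧
      ∀ κ : ℝ, 0 < κ → ∀ h : ℝ, 0 ≤ h → h ≤ rootDisc K ^ (2 - ε) → (Violators K κ h).Finite ∧
        ((Violators K κ h).ncard : ℝ) ≤ Real.exp ((n / κ + n * (n - 2)) * h - (2 * n - ε) * rootDisc K)) ∧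
    (∀ X : ℝ, 1000 ≤ X → X / 32 ≤ ((Fields 2 X fun K _ _ => 0 < discr K).ncard : ℝ)) ∧
    (∃ C : ℝ, ∀ (K : Type) [Field K] [NumberField K], Module.finrank ℚ K = 2 → 0 < discr K →
      (Gens K (rootDisc K / 2 + C) (rootDisc K + C)).Nonempty) ∧
    (∀ n : ℕ, 2 ≤ n → ∀ θ : ℝ, 1 / 2 < θ → ∃ C : ℝ, ∀ h r : ℝ, 0 ≤ h → (Numbers n h r).Finite ∧
      ((Numbers n h r).ncard : ℝ) ≤ Real.exp (n * (n - 2) * h + n * r + C * (h + 1) ^ θ)) ∧
    (∃ c C r₀ : ℝ, 0 < c ∧ ∀ r : ℝ, r₀ ≤ r → c * Real.exp (2 * r) ≤ ((Numbers 2 (r / 2 + C) r).ncard : ℝ)) := by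
  refine ⟨fun n hn ε hε hε1 => part_one n hn hε hε1, ?_, ?_, part_four, fun n hn θ hθ => part_five n hn hθ, part_six⟩
  · intro K _ _ n ε hF
    refine ⟨fun x hx hh => ?_, fun κ hκ h hh0 hh => part_three hκ hF h hh0 hh⟩
    have h1 := part_two hF x hx hh
    refine ⟨h1, fun κ hκ h2 => ?_⟩
    have h3 := mul_le_mul_of_nonneg_left h1 hκ.le
    linarith
  · intro X hX
    have h1 := Pool.Agent.H46QF.real_count hX
    have h2 : Pool.Agent.H46QF.RealQ X = Fields 2 X fun K _ _ => 0 < discr K := by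
      ext K
      constructor
      · rintro ⟨hn, k1, k2, k3⟩
        refine ⟨hn, k1, ?_, k2⟩
        rw [abs_of_pos (by exact_mod_cast k2)]
        exact k3
      · rintro ⟨hn, k1, k2, k3⟩
        refine ⟨hn, k1, k3, ?_⟩
        rw [abs_of_pos (by exact_mod_cast k3)] at k2
        exact k2
    rw [← h2]
    exact h1

end Pool.Agent.Results.MP_6e34ef_nt.AlmostAllFields
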