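import Mathlib
import Pool.Agent.H88.CP13

/-!
# The uniform abc inequality for the points of degree three

For `x` of degree three let `K = ℚ(x)`, and let `H`, `N` be the height and the conductor of the triple
`(x, 1 - x, -1)` and `δ` the root discriminant of `K`. We show that there are between `c B ^ 12` and
`C B ^ 12` such `x` with `H ≤ B`, that `δ N ≤ C H ^ 7` for all `x`, that for every `κ > 1 / 7` and
every `c` the inequality `H ≤ exp(c) (δ N) ^ κ` holds for 100% of all `x` ordered by the height, with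
a power saving, and that for `κ < 1 / 7` it holds for finitely many `x` only: `H` is
`(δ N) ^ (1 / 7 + o(1))` for 100% of all `x`.

The main new tool is the bound `M * B ^ (6 + ε) * Y ^ (1 / 2)` for the number of `x` with `H ≤ B` and
`|D_K| ≤ Y`, for all `B, Y ≥ 1`: the primitive cubic form of `x / (1 - x)` is the image of the
index form of a reduced basis of the ring of integers of `K` under an integral matrix whose
determinant divides the index, and these matrices are counted with the divisor bound.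
-/

set_option autoImplicit false

namespace Pool.Agent.Results.MP_6e34ef_nt.CubicPointsSharp

open NumberField IsDedekindDomain

section Defs

variable {K : Type} [Field K] [NumberField K]

/-- `log H(x_0, x_1, x_2)` -/
noncomputable def height (x : Fin 3 → K) : ℝ :=
  (∑ w : InfinitePlace K, (w.mult : ℝ) * Real.log (max (w (x 0)) (max (w (x 1)) (w (x 2)))) +
    ∑ᶠ v : HeightOneSpectrum (𝓞 K), Real.log
      (max (FinitePlace.mk v (x 0)) (max (FinitePlace.mk v (x 1)) (FinitePlace.mk v (x 2))))) /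
    (Module.finrank ℚ K : ℝ)

/-- `log N(x_0, x_1, x_2)` -/
noncomputable def conductor (x : Fin 3 → K) : ℝ :=
  (∑ᶠ (v : HeightOneSpectrum (𝓞 K)) (_ : ¬ (FinitePlace.mk v (x 0) = FinitePlace.mk v (x 1) ∧
      FinitePlace.mk v (x 1) = FinitePlace.mk v (x 2))),
    Real.log (Ideal.absNorm v.asIdeal : ℝ)) / (Module.finrank ℚ K : ℝ)

variable (K) in
/-- `log δ_K` -/
noncomputable def rootDisc : ℝ := Real.log |(NumberField.discr K : ℝ)| / (Module.finrank ℚ K : ℝ)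

end Defs

/-- the algebraic numbers `x` of degree three for which `P K t` holds, where `K = ℚ(x)` and `t` is `x`
as an element of `K` -/
def Deg3 (P : ∀ (K : IntermediateField ℚ (AlgebraicClosure ℚ)) [NumberField K], K → Prop) :
    Set (AlgebraicClosure ℚ) :=
  {x | ∃ (K : IntermediateField ℚ (AlgebraicClosure ℚ)) (_ : NumberField K) (t : K),
    (t : AlgebraicClosure ℚ) = x ∧ Module.finrank ℚ K = 3 ∧ (∀ q : ℚ, t ≠ algebraMap ℚ K q) ∧
      P K t}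

/-- the numbers of degree three and height `H(x, 1 - x, -1) ≤ B` -/
def Points (B : ℝ) : Set (AlgebraicClosure ℚ) :=
  Deg3 fun _ _ t => height ![t, 1 - t, -1] ≤ Real.log B

/-- those with `|D_K| ≤ Y` -/
def SmallDisc (B Y : ℝ) : Set (AlgebraicClosure ℚ) :=
  Deg3 fun K _ t => height ![t, 1 - t, -1] ≤ Real.log B ∧ |(NumberField.discr K : ℝ)| ≤ Y

/-- those which violate `H ≤ exp(c) * (δ_K * N) ^ κ` -/
def Violators (κ c B : ℝ) : Set (AlgebraicClosure ℚ) :=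
  Deg3 fun K _ t => height ![t, 1 - t, -1] ≤ Real.log B ∧
    c + κ * (rootDisc K + conductor ![t, 1 - t, -1]) < height ![t, 1 - t, -1]

/-- the numbers of degree three, of any height, with `H ≤ exp(c) * (δ_K * N) ^ κ` -/
def Satisfying (κ c : ℝ) : Set (AlgebraicClosure ℚ) :=
  Deg3 fun K _ t =>
    height ![t, 1 - t, -1] ≤ c + κ * (rootDisc K + conductor ![t, 1 - t, -1])

theorem points_iff (B : ℝ) (x : AlgebraicClosure ℚ) : x ∈ Points B ↔ H88.CP.Cub3 B x := Iff.rfl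

theorem viol_iff (κ c B : ℝ) (x : AlgebraicClosure ℚ) :
    x ∈ Violators κ c B ↔ H88.CP.Vio3 κ c B x := by
  constructor
  · rintro ⟨K, h, t, h1, h2, h3, h4, h5⟩
    exact ⟨K, h, t, h1, h2, h3, h4, h5⟩
  · rintro ⟨K, h, t, h1, h2, h3, h4, h5⟩
    exact ⟨K, h, t, h1, h2, h3, h4, h5⟩

theorem points_up {B : ℝ} (hB : 1 ≤ B) : (Points B).Finite ∧
    ((Points B).ncard : ℝ) ≤ 3 * 96 ^ 4 * B ^ 12 :=
  W222.UABC.ncard_le_of _ _ fun E hE => H88.CP.cub_up hB E fun x hx =>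
    (points_iff B x).1 (hE (Finset.mem_coe.2 hx))

theorem points_finite (R : ℝ) :
    (Deg3 fun _ _ t => height ![t, 1 - t, -1] ≤ R).Finite := by
  refine (points_up (le_max_right (Real.exp R) 1)).1.subset ?_
  rintro x ⟨K, h, t, h1, h2, h3, h4⟩
  refine ⟨K, h, t, h1, h2, h3, h4.trans ?_⟩
  rw [Real.le_log_iff_exp_le (by positivity)]
  exact le_max_left _ _

theorem size_nonneg {K : Type} [Field K] [NumberField K] (x : Fin 3 → K) :
    0 ≤ rootDisc K + conductor x :=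
  add_nonneg (div_nonneg (Real.log_nonneg W222.UABC.one_le_disc) (Nat.cast_nonneg _))
    (W222.UABC.conductor_nonneg x)

theorem part_two : ∃ C : ℝ, ∀ (K : Type) [Field K] [NumberField K],
    Module.finrank ℚ K = 3 → ∀ x : K, (∀ q : ℚ, x ≠ algebraMap ℚ K q) →
      rootDisc K + conductor ![x, 1 - x, -1] ≤ 7 * height ![x, 1 - x, -1] + C :=
  ⟨_, fun _ _ _ hK _ hirr => H88.CP.up3 hK hirr⟩

theorem part_one : ∃ c C B₀ : ℝ, 0 < c ∧ 1 ≤ B₀ ∧ ∀ B : ℝ, B₀ ≤ B → (Points B).Finite ∧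
    c * B ^ 12 ≤ ((Points B).ncard : ℝ) ∧ ((Points B).ncard : ℝ) ≤ C * B ^ 12 := by
  obtain ⟨c, B₀, hc, hB₀, h⟩ := H88.CP.many3
  refine ⟨c, 3 * 96 ^ 4, B₀, hc, hB₀, fun B hB => ?_⟩
  obtain ⟨h1, h2⟩ := points_up (hB₀.trans hB)
  obtain ⟨E, hE1, hE2⟩ := h B hB
  refine ⟨h1, hE1.trans ?_, h2⟩
  rw [← Set.ncard_coe_finset E]
  exact_mod_cast Set.ncard_le_ncard (fun x hx => (points_iff B x).2 (hE2 x (Finset.mem_coe.1 hx))) h1

theorem part_three {ε : ℝ} (hε : 0 < ε) : ∃ M : ℝ, ∀ B Y : ℝ, 1 ≤ B → 1 ≤ Y →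
    ((SmallDisc B Y).ncard : ℝ) ≤ M * B ^ (6 + ε) * Y ^ (1 / 2 : ℝ) := by
  classical
  obtain ⟨D, hD, h⟩ := H88.CP.small3 (ε := ε / 3) (by positivity)
  refine ⟨D, fun B Y hB hY => (W222.UABC.ncard_le_of _ _ fun E hE => ?_).2⟩
  have hB0 : 0 < B := by linarith
  have hY0 : 0 < Y := by linarith
  have hpt : ∀ x ∈ E, x ≠ 1 ∧
      ∃ (K : IntermediateField ℚ (AlgebraicClosure ℚ)) (_ : NumberField K) (t : K),
        (t : AlgebraicClosure ℚ) = x / (1 - x) ∧ Module.finrank ℚ K = 3 ∧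
          (∀ q : ℚ, t ≠ algebraMap ℚ K q) ∧ W223.AK.Pt t ∧ W223.AK.ht t ≤ 3 * Real.log B ∧
          Real.log |(NumberField.discr K : ℝ)| ≤ Real.log Y := by
    intro x hx
    obtain ⟨K, hnf, t, htx, hK, hirr, hh, hd⟩ := hE (Finset.mem_coe.2 hx)
    have ht0 : t ≠ 0 := fun h => hirr 0 (by rw [h, map_zero])
    have ht1 : t ≠ 1 := fun h => hirr 1 (by rw [h, map_one])
    obtain ⟨hPt, hht, -⟩ := R365.QP.point_of ht0 ht1
    rw [hK] at hht
    push_cast at hht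
    change W222.UABC.height ![t, 1 - t, -1] ≤ Real.log B at hh
    have hd0 : (0 : ℝ) < |(NumberField.discr K : ℝ)| := by
      have := W222.UABC.one_le_disc (K := K)
      linarith
    refine ⟨?_, K, hnf, t / (1 - t), ?_, hK, H88.CP.frac_irr hirr, hPt, by linarith,
      Real.log_le_log hd0 hd⟩
    · rw [← htx]
      intro h
      apply ht1
      exact_mod_cast h
    · rw [← htx]
      push_cast
      rfl
  rw [← Finset.card_image_of_injOn (R365.QP.inj_div E fun x hx => (hpt x hx).1)]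
  refine (h (3 * Real.log B) (Real.log Y) _ (by have := Real.log_nonneg hB; positivity)
    (Real.log_nonneg hY) ?_).trans (le_of_eq ?_)
  · intro y hy
    obtain ⟨x, hx, rfl⟩ := Finset.mem_image.1 hy
    exact (hpt x hx).2
  · rw [mul_assoc, Real.rpow_def_of_pos hB0, Real.rpow_def_of_pos hY0, ← Real.exp_add]
    congr 2
    ring

theorem viol_up {κ c ε : ℝ} (h0 : 0 < κ) (hε : 0 < ε) :
    ∃ M : ℝ, 0 < M ∧ ∀ B : ℝ, 1 ≤ B →
      (κ ≤ 1 → ((Violators κ c B).ncard : ℝ) ≤ M * B ^ (5 + 1 / κ + ε)) ∧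
      ((Violators κ c B).ncard : ℝ) ≤ M * B ^ (3 / 4 + 9 / (4 * κ) + ε) ∧
      ((Violators κ c B).ncard : ℝ) ≤ M * B ^ (3 / κ + ε) := by
  have hone : ∃ M : ℝ, 0 < M ∧ ∀ B : ℝ, 1 ≤ B →
      (κ ≤ 1 → ((Violators κ c B).ncard : ℝ) ≤ M * B ^ (5 + 1 / κ + ε)) := by
    by_cases h1 : κ ≤ 1
    · obtain ⟨M, hM, h⟩ := H88.CP.vio_one (c := c) h0 h1 hε
      exact ⟨M, hM, fun B hB _ => (W222.UABC.ncard_le_of _ _ fun E hE => h B hB E fun x hx =>
        (viol_iff κ c B x).1 (hE (Finset.mem_coe.2 hx))).2⟩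
    · exact ⟨1, one_pos, fun B hB h => absurd h h1⟩
  obtain ⟨M1, hM1, h1⟩ := hone
  obtain ⟨M2, hM2, h2⟩ := H88.CP.vio_two (c := c) h0 hε
  obtain ⟨M3, hM3, h3⟩ := H88.CP.vio_three (c := c) h0 hε
  refine ⟨M1 + M2 + M3, by positivity, fun B hB => ⟨fun hκ => ?_, ?_, ?_⟩⟩
  · refine (h1 B hB hκ).trans (mul_le_mul_of_nonneg_right (by linarith) ?_)
    exact (Real.rpow_pos_of_pos (by linarith) _).le
  · refine (W222.UABC.ncard_le_of _ _ fun E hE => h2 B hB E fun x hx =>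
        (viol_iff κ c B x).1 (hE (Finset.mem_coe.2 hx))).2.trans
      (mul_le_mul_of_nonneg_right (by linarith) ?_)
    exact (Real.rpow_pos_of_pos (by linarith) _).le
  · refine (W222.UABC.ncard_le_of _ _ fun E hE => h3 B hB E fun x hx =>
        (viol_iff κ c B x).1 (hE (Finset.mem_coe.2 hx))).2.trans
      (mul_le_mul_of_nonneg_right (by linarith) ?_)
    exact (Real.rpow_pos_of_pos (by linarith) _).le

theorem viol_subset (κ c B : ℝ) : Violators κ c B ⊆ Points B := by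
  rintro x ⟨K, h, t, h1, h2, h3, h4, h5⟩
  exact ⟨K, h, t, h1, h2, h3, h4⟩

theorem part_five {κ c ε : ℝ} (h7 : 1 / 7 ≤ κ) (h6 : κ < 1 / 6) (hε : 0 < ε) :
    ∃ m B₀ : ℝ, 0 < m ∧ ∀ B : ℝ, B₀ ≤ B →
      m * B ^ (3 / 2 + 3 / (2 * κ) - ε) ≤ ((Violators κ c B).ncard : ℝ) := by
  obtain ⟨m, B₀, hm, hB₀, h'⟩ := H88.CP.vio_low c h7 h6 hε
  refine ⟨m, B₀, hm, fun B hB => ?_⟩
  obtain ⟨E, hE1, hE2⟩ := h' B hB
  refine hE1.trans ?_
  rw [← Set.ncard_coe_finset E]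
  exact_mod_cast Set.ncard_le_ncard
    (fun x hx => (viol_iff κ c B x).2 (hE2 x (Finset.mem_coe.1 hx)))
    ((points_up (hB₀.trans hB)).1.subset (viol_subset κ c B))

theorem part_six {κ c : ℝ} (hκ : 1 / 7 < κ) : ∃ ν M B₀ : ℝ, 0 < ν ∧ ∀ B : ℝ, B₀ ≤ B →
    ((Violators κ c B).ncard : ℝ) ≤ M * B ^ (-ν) * ((Points B).ncard : ℝ) := by
  obtain ⟨κ', hκ'⟩ : ∃ κ' : ℝ, κ' = min κ 1 := ⟨_, rfl⟩
  have h1 : 1 / 7 < κ' := by rw [hκ']; exact lt_min hκ (by norm_num)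
  have h2 : κ' ≤ 1 := by rw [hκ']; exact min_le_right _ _
  have h3 : κ' ≤ κ := by rw [hκ']; exact min_le_left _ _
  have h0 : 0 < κ' := by linarith
  have h5 : 1 / κ' < 7 := by
    rw [div_lt_iff₀ h0]
    linarith
  obtain ⟨ν, hν⟩ : ∃ ν : ℝ, ν = (7 - 1 / κ') / 2 := ⟨_, rfl⟩
  have hν0 : 0 < ν := by rw [hν]; linarith
  obtain ⟨M, hM, h⟩ := viol_up (c := c) h0 hν0
  obtain ⟨c0, C, B₀, hc0, hB₀, hP⟩ := part_one
  refine ⟨ν, M / c0, B₀, hν0, fun B hB => ?_⟩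
  have hB1 : 1 ≤ B := hB₀.trans hB
  have hB0 : 0 < B := by linarith
  obtain ⟨hfin, hlow, -⟩ := hP B hB
  have hsub : Violators κ c B ⊆ Violators κ' c B := by
    rintro x ⟨K, hK, t, k1, k2, k3, k4, k5⟩
    refine ⟨K, hK, t, k1, k2, k3, k4, lt_of_le_of_lt ?_ k5⟩
    have := mul_le_mul_of_nonneg_right h3 (size_nonneg ![t, 1 - t, -1])
    linarith
  have hle : ((Violators κ c B).ncard : ℝ) ≤ ((Violators κ' c B).ncard : ℝ) := by
    exact_mod_cast Set.ncard_le_ncard hsub (hfin.subset (viol_subset κ' c B))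
  have e1 : B ^ (5 + 1 / κ' + ν) = B ^ (-ν) * B ^ 12 := by
    rw [← Real.rpow_natCast B 12, ← Real.rpow_add hB0]
    congr 1
    rw [hν]
    push_cast
    ring
  have e2 : 0 ≤ M * B ^ (-ν) := by positivity
  calc ((Violators κ c B).ncard : ℝ) ≤ M * B ^ (5 + 1 / κ' + ν) := hle.trans ((h B hB1).1 h2)
    _ = M * B ^ (-ν) / c0 * (c0 * B ^ 12) := by
        rw [e1]
        field_simp
    _ ≤ M * B ^ (-ν) / c0 * ((Points B).ncard : ℝ) :=
        mul_le_mul_of_nonneg_left hlow (by positivity)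
    _ = _ := by ring

theorem part_seven {κ c : ℝ} (hκ : κ < 1 / 7) : (Satisfying κ c).Finite := by
  obtain ⟨C, hC⟩ := part_two
  refine (points_finite (max c ((c + |κ| * |C|) / (1 - 7 * κ)))).subset ?_
  rintro x ⟨K, hK, t, k1, k2, k3, k4⟩
  refine ⟨K, hK, t, k1, k2, k3, ?_⟩
  have h1 := hC K k2 t k3
  have h2 := size_nonneg ![t, 1 - t, -1]
  obtain ⟨h, hh⟩ : ∃ h : ℝ, h = height ![t, 1 - t, -1] := ⟨_, rfl⟩
  obtain ⟨l, hl⟩ : ∃ l : ℝ, l = rootDisc K + conductor ![t, 1 - t, -1] := ⟨_, rfl⟩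
  rw [← hh, ← hl] at k4
  rw [← hh, ← hl] at h1
  rw [← hl] at h2
  change height ![t, 1 - t, -1] ≤ _
  rw [← hh]
  rcases le_or_gt κ 0 with h0 | h0
  · refine le_trans ?_ (le_max_left _ _)
    have := mul_nonpos_of_nonpos_of_nonneg h0 h2
    linarith
  · refine le_trans ?_ (le_max_right _ _)
    have h3 : 0 < 1 - 7 * κ := by linarith
    rw [le_div_iff₀ h3, abs_of_pos h0]
    have h4 := mul_le_mul_of_nonneg_left h1 h0.le
    have h5 := mul_le_mul_of_nonneg_left (le_abs_self C) h0.le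
    linarith

/-- **Main theorem.** The algebraic numbers `x` of degree three, `K = ℚ(x)`.
(1) The number of those with `H ≤ B` is between `c * B ^ 12` and `C * B ^ 12`.
(2) `δ_K * N ≤ exp(C) * H ^ 7` for all of them.
(3) For all `B, Y ≥ 1` at most `M * B ^ (6 + ε) * Y ^ (1 / 2)` have `H ≤ B` and `|D_K| ≤ Y`.
(4) For `κ > 0` and all `c` the number of those with `H ≤ B` which violate
`H ≤ exp(c) * (δ_K * N) ^ κ` is at most `M * B ^ (5 + 1 / κ + ε)` (for `κ ≤ 1`), at most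
`M * B ^ (3 / 4 + 9 / (4 * κ) + ε)` and at most `M * B ^ (3 / κ + ε)`.
(5) For `1 / 7 ≤ κ < 1 / 6` and all `c` it is at least `m * B ^ (3 / 2 + 3 / (2 * κ) - ε)`.
(6) For `κ > 1 / 7` and all `c` the violators are at most the proportion `M * B ^ (-ν)`, `ν > 0`, of
all.
(7) For `κ < 1 / 7` and all `c` only finitely many satisfy `H ≤ exp(c) * (δ_K * N) ^ κ`. -/
theorem result :
    (∃ c C B₀ : ℝ, 0 < c ∧ 1 ≤ B₀ ∧ ∀ B : ℝ, B₀ ≤ B → (Points B).Finite ∧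
      c * B ^ 12 ≤ ((Points B).ncard : ℝ) ∧ ((Points B).ncard : ℝ) ≤ C * B ^ 12) ∧
    (∃ C : ℝ, ∀ (K : Type) [Field K] [NumberField K],
      Module.finrank ℚ K = 3 → ∀ x : K, (∀ q : ℚ, x ≠ algebraMap ℚ K q) →
        rootDisc K + conductor ![x, 1 - x, -1] ≤ 7 * height ![x, 1 - x, -1] + C) ∧
    (∀ ε : ℝ, 0 < ε → ∃ M : ℝ, ∀ B Y : ℝ, 1 ≤ B → 1 ≤ Y →
      ((SmallDisc B Y).ncard : ℝ) ≤ M * B ^ (6 + ε) * Y ^ (1 / 2 : ℝ)) ∧
    (∀ κ c ε : ℝ, 0 < κ → 0 < ε → ∃ M : ℝ, 0 < M ∧ ∀ B : ℝ, 1 ≤ B →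
      (κ ≤ 1 → ((Violators κ c B).ncard : ℝ) ≤ M * B ^ (5 + 1 / κ + ε)) ∧
      ((Violators κ c B).ncard : ℝ) ≤ M * B ^ (3 / 4 + 9 / (4 * κ) + ε) ∧
      ((Violators κ c B).ncard : ℝ) ≤ M * B ^ (3 / κ + ε)) ∧
    (∀ κ c ε : ℝ, 1 / 7 ≤ κ → κ < 1 / 6 → 0 < ε → ∃ m B₀ : ℝ, 0 < m ∧ ∀ B : ℝ, B₀ ≤ B →
      m * B ^ (3 / 2 + 3 / (2 * κ) - ε) ≤ ((Violators κ c B).ncard : ℝ)) ∧
    (∀ κ c : ℝ, 1 / 7 < κ → ∃ ν M B₀ : ℝ, 0 < ν ∧ ∀ B : ℝ, B₀ ≤ B →
      ((Violators κ c B).ncard : ℝ) ≤ M * B ^ (-ν) * ((Points B).ncard : ℝ)) ∧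
    (∀ κ c : ℝ, κ < 1 / 7 → (Satisfying κ c).Finite) :=
  ⟨part_one, part_two, fun _ hε => part_three hε, fun _ _ _ h0 hε => viol_up h0 hε,
    fun _ _ _ h7 h6 hε => part_five h7 h6 hε, fun _ _ hκ => part_six hκ, fun _ _ hκ => part_seven hκ⟩

end Pool.Agent.Results.MP_6e34ef_nt.CubicPointsSharp
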