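import Pool.Agent.H37EU.Main
import Pool.Agent.H37EU.Exc
import Pool.Agent.H37EU.ONE
import Pool.Agent.H37EU.UPE

/-!
# The uniform abc inequality for exceptional units and for points of small conductor

For a number field `K` and `x ∈ K` let `H`, `N` be the height and the conductor of the triple `(x, 1 - x, -1)` and `δ` the
root discriminant of `K`. The uniform abc inequality is `H ≤ C (δ N) ^ (1 + ε)`, for all `K` and all `x`. We study the
numbers `x` of degree `n` (over all number fields `K = ℚ(x)` of degree `n`) for which the conductor is small: `N ≤ R`,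
with any `1 ≤ R ≤ B ^ 2`, where `B` is the bound of the height. The extreme case is `N = 1`, where `x` and `1 - x` are units
(`x` is an exceptional unit); there the inequality says that `H ≤ C δ ^ (1 + ε)`.

* There are `R ^ n B ^ (n (n - 2))` of these numbers with `H ≤ B`, up to a factor `B ^ ε`, and the exact order of the number
  of exceptional units is `B ^ (n (n - 2))`.
* For `κ > e_n / (n - 2)` 100% of the exceptional units of degree `n` satisfy `H ≤ exp(c) δ ^ κ`, with a power saving; here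
  `e_n` is an exponent for the number of the fields of degree `n`: `e_3 = 1`, `e_n ≤ (n + 2) / 4` for primes `n`, and
  `e_n = O(log ^ 2 n)`. For `κ < 1 / (2 n - 2)` only finitely many of them do.
* The same for `N ≤ R`, uniformly for `R ≥ B ^ θ`, if `κ > e_n / (n - 2 + θ)`.
* At least `c X ^ ((n - 2) / (2 n - 2) - ε)` fields of degree `n` with `|D_K| ≤ X` are generated by an exceptional unit.

Method: integral polynomials of degree `n` with given small odd values at `0` and `1`, irreducible modulo two; Mahler's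
measure; uniform bounds for the numbers of fields of degree `n` and of the points of one field (starting files).
-/

set_option autoImplicit false

namespace Pool.Agent.Results.MP_6e34ef_nt.ExceptionalUnits

open NumberField IsDedekindDomain

section Defs

variable {K : Type} [Field K] [NumberField K]

/-- `log H(x_0, x_1, x_2)` -/
noncomputable def height (x : Fin 3 → K) : ℝ :=
  (∑ w : InfinitePlace K, (w.mult : ℝ) * Real.log (max (w (x 0)) (max (w (x 1)) (w (x 2)))) +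
    ∑ᶠ v : HeightOneSpectrum (𝓞 K), Real.log
      (max (FinitePlace.mk v (x 0)) (max (FinitePlace.mk v (x 1)) (FinitePlace.mk v (x 2))))) /
    (Module.finrank ℚ K : ℝ)

/-- `log N(x_0, x_1, x_2)` -/
noncomputable def conductor (x : Fin 3 → K) : ℝ :=
  (∑ᶠ (v : HeightOneSpectrum (𝓞 K)) (_ : ¬ (FinitePlace.mk v (x 0) = FinitePlace.mk v (x 1) ∧
      FinitePlace.mk v (x 1) = FinitePlace.mk v (x 2))),
    Real.log (Ideal.absNorm v.asIdeal : ℝ)) / (Module.finrank ℚ K : ℝ)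

/-- `log H` for the triple `(x, 1 - x, -1)` -/
noncomputable def H (x : K) : ℝ := height ![x, 1 - x, -1]

/-- `log N` for the triple `(x, 1 - x, -1)` -/
noncomputable def N (x : K) : ℝ := conductor ![x, 1 - x, -1]

variable (K) in
/-- `log δ_K` -/
noncomputable def rootDisc : ℝ := Real.log |(NumberField.discr K : ℝ)| / (Module.finrank ℚ K : ℝ)

/-- `x` generates the field `K` over `ℚ` -/
def Generates (x : K) : Prop := IntermediateField.adjoin ℚ {x} = ⊤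

/-- `x` is an exceptional unit: `x` and `1 - x` are units of the ring of integers -/
def Exceptional (x : K) : Prop :=
  x ≠ 0 ∧ x ≠ 1 ∧ IsIntegral ℤ x ∧ IsIntegral ℤ x⁻¹ ∧ IsIntegral ℤ (1 - x)⁻¹

end Defs

/-- the algebraic numbers `x` of degree `n` which have the property `P` in the field `ℚ(x)` -/
def Numbers (n : ℕ) (P : ∀ (K : Type) [Field K] [NumberField K], K → Prop) :
    Set (AlgebraicClosure ℚ) :=
  {x | ∃ (K : IntermediateField ℚ (AlgebraicClosure ℚ)) (_ : NumberField K) (t : K),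
    (t : AlgebraicClosure ℚ) = x ∧ Module.finrank ℚ K = n ∧ Generates t ∧ P K t}

/-- the numbers of degree `n` with `H ≤ B` and `N ≤ R` -/
def Points (n : ℕ) (B R : ℝ) : Set (AlgebraicClosure ℚ) :=
  Numbers n fun _ _ _ t => H t ≤ Real.log B ∧ N t ≤ Real.log R

/-- those which violate `H ≤ exp(c) (δ N) ^ κ` -/
def Violators (n : ℕ) (κ c B R : ℝ) : Set (AlgebraicClosure ℚ) :=
  Numbers n fun K _ _ t => (H t ≤ Real.log B ∧ N t ≤ Real.log R) ∧ c + κ * (rootDisc K + N t) < H t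

/-- the exceptional units of degree `n` with `H ≤ B` -/
def ExcUnits (n : ℕ) (B : ℝ) : Set (AlgebraicClosure ℚ) :=
  Numbers n fun _ _ _ t => Exceptional t ∧ H t ≤ Real.log B

/-- those which violate `H ≤ exp(c) δ ^ κ` -/
def ExcViolators (n : ℕ) (κ c B : ℝ) : Set (AlgebraicClosure ℚ) :=
  Numbers n fun K _ _ t => (Exceptional t ∧ H t ≤ Real.log B) ∧ c + κ * rootDisc K < H t

/-- the exceptional units of degree `n`, of any height, with `H ≤ exp(c) δ ^ κ` -/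
def ExcSatisfying (n : ℕ) (κ c : ℝ) : Set (AlgebraicClosure ℚ) :=
  Numbers n fun K _ _ t => Exceptional t ∧ H t ≤ c + κ * rootDisc K

/-- the fields of degree `n` with `|D_K| ≤ X` which are generated by an exceptional unit -/
def Fields (n : ℕ) (X : ℝ) : Set (IntermediateField ℚ (AlgebraicClosure ℚ)) :=
  {K | ∃ _ : NumberField K, Module.finrank ℚ K = n ∧ |(discr K : ℝ)| ≤ X ∧
    ∃ t : K, Generates t ∧ Exceptional t}

/-- The exponent `(n + 2) (n - 1) / (4 (n - n / p))`, `p` the least prime factor of `n`; it is `(n + 2) / 4` for primes. -/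
noncomputable def expo (n : ℕ) : ℝ :=
  (((n + 2) * (n - 1) : ℕ) : ℝ) / (4 * ((n - n / n.minFac : ℕ) : ℝ))

theorem exc_iff {K : Type} [Field K] [NumberField K] {t : K} (h0 : t ≠ 0) (h1 : t ≠ 1) :
    N t = 0 ↔ Exceptional t :=
  (Pool.Agent.H37EU.t_ONE h0 h1).trans ⟨fun h => ⟨h0, h1, h⟩, fun h => h.2.2⟩

theorem gen_ne {K : Type} [Field K] [NumberField K] {n : ℕ} (hn : 2 ≤ n) (hK : Module.finrank ℚ K = n) {t : K}
    (h : Generates t) : t ≠ 0 ∧ t ≠ 1 := by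
  constructor
  · intro h1
    apply Pool.Agent.H46QF.gen_irr (by omega) h 0
    rw [h1, map_zero]
  · intro h1
    apply Pool.Agent.H46QF.gen_irr (by omega) h 1
    rw [h1, map_one]

theorem N_nonneg {K : Type} [Field K] [NumberField K] (t : K) : 0 ≤ N t :=
  Pool.Agent.W222.UABC.conductor_nonneg _

theorem excUnits_eq {n : ℕ} (hn : 2 ≤ n) (B : ℝ) : ExcUnits n B = Points n B 1 := by
  ext x
  constructor
  · rintro ⟨K, hnf, t, h1, h2, h3, h4, h5⟩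
    refine ⟨K, hnf, t, h1, h2, h3, h5, ?_⟩
    rw [Real.log_one, (exc_iff h4.1 h4.2.1).2 h4]
  · rintro ⟨K, hnf, t, h1, h2, h3, h4, h5⟩
    obtain ⟨k0, k1⟩ := gen_ne hn h2 h3
    rw [Real.log_one] at h5
    exact ⟨K, hnf, t, h1, h2, h3, (exc_iff k0 k1).1 (le_antisymm h5 (N_nonneg t)), h4⟩

theorem excViolators_sub {n : ℕ} (κ c B : ℝ) : ExcViolators n κ c B ⊆ Violators n κ c B 1 := by
  rintro x ⟨K, hnf, t, h1, h2, h3, ⟨h4, h5⟩, h6⟩
  have h7 : N t = 0 := (exc_iff h4.1 h4.2.1).2 h4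
  refine ⟨K, hnf, t, h1, h2, h3, ⟨h5, by rw [Real.log_one, h7]⟩, ?_⟩
  rw [h7, add_zero]
  exact h6

theorem points_eq (n : ℕ) (B R : ℝ) :
    Points n B R = Pool.Agent.H37EU.PtsG n (Real.log B) (Real.log R) := rfl

theorem violators_sub {n : ℕ} (κ c B R : ℝ) :
    Violators n κ c B R ⊆ Pool.Agent.H37EU.ViolG n κ c (Real.log B) (Real.log R) := by
  rintro x ⟨K, hnf, t, h1, h2, h3, ⟨h4, h5⟩, h6⟩
  exact ⟨K, hnf, t, h1, h2, ⟨h3, h4, h5⟩, h6⟩

theorem violators_le {n : ℕ} (hn : 2 ≤ n) (κ c B R : ℝ) :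
    ((Violators n κ c B R).ncard : ℝ) ≤
      ((Pool.Agent.H37EU.ViolG n κ c (Real.log B) (Real.log R)).ncard : ℝ) := by
  exact_mod_cast Set.ncard_le_ncard (violators_sub κ c B R)
    ((Pool.Agent.H46QF.inGen_finite n hn _ _).subset (Pool.Agent.H37EU.violG_subset n κ c _ _))

theorem excViolators_le {n : ℕ} (hn : 2 ≤ n) (κ c B : ℝ) :
    ((ExcViolators n κ c B).ncard : ℝ) ≤ ((Violators n κ c B 1).ncard : ℝ) := by
  exact_mod_cast Set.ncard_le_ncard (excViolators_sub κ c B)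
    (((Pool.Agent.H46QF.inGen_finite n hn _ _).subset
      (Pool.Agent.H37EU.violG_subset n κ c _ _)).subset (violators_sub κ c B 1))

theorem part_two (n : ℕ) (hn : 2 ≤ n) (ε : ℝ) (hε : 0 < ε) :
    ∃ c C B₀ : ℝ, 0 < c ∧ ∀ B R : ℝ, B₀ ≤ B → 1 ≤ R → R ≤ B ^ 2 → (Points n B R).Finite ∧
      c * (R ^ n * B ^ (n * (n - 2))) ≤ ((Points n B R).ncard : ℝ) ∧
      ((Points n B R).ncard : ℝ) ≤ C * (R ^ n * B ^ (n * (n - 2))) * B ^ ε := by
  obtain ⟨c, C, B₀, h1, -, h2⟩ := Pool.Agent.H37EU.count_two hn hε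
  exact ⟨c, C, B₀, h1, fun B R h3 h4 h5 => h2 B R h3 h4 h5⟩

theorem part_three (n : ℕ) (hn : 2 ≤ n) :
    ∃ c C B₀ : ℝ, 0 < c ∧ ∀ B : ℝ, B₀ ≤ B → (ExcUnits n B).Finite ∧
      c * B ^ (n * (n - 2)) ≤ ((ExcUnits n B).ncard : ℝ) ∧
      ((ExcUnits n B).ncard : ℝ) ≤ C * B ^ (n * (n - 2)) := by
  obtain ⟨c, _, B₀, h1, hB₀, h2⟩ := Pool.Agent.H37EU.count_two hn one_pos
  obtain ⟨C, hC, hup⟩ := Pool.Agent.H37EU.t_UPE n hn
  refine ⟨c, C, B₀, h1, fun B hB => ?_⟩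
  have hB1 : 1 ≤ B := hB₀.trans hB
  have hlow : c * B ^ (n * (n - 2)) ≤ ((ExcUnits n B).ncard : ℝ) := by
    have h3 := (h2 B 1 hB le_rfl (one_le_pow₀ hB1)).2.1
    rw [one_pow, one_mul, ← points_eq, ← excUnits_eq hn] at h3
    exact h3
  have hfin : (ExcUnits n B).Finite ∧ ((ExcUnits n B).ncard : ℝ) ≤ C * B ^ (n * (n - 2)) := by
    refine Pool.Agent.W222.UABC.ncard_le_of _ _ fun E hE => hup B hB1 E fun x hx => ?_
    obtain ⟨K, hnf, t, k1, k2, k3, k4, k5⟩ := hE (Finset.mem_coe.2 hx)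
    obtain ⟨f, f1, f2, f3, f4, f5, f6⟩ := Pool.Agent.H37EU.exc_poly hn k2 k3 k4.2.2.1 k4.2.2.2.1
      k4.2.2.2.2 hB1 k5
    refine ⟨f, f1, f2, ?_, f4, f5, f6⟩
    rw [← k1]
    rw [Polynomial.aeval_def] at f3
    have e1 := congrArg (K.val : K →+* AlgebraicClosure ℚ) f3
    rw [Polynomial.hom_eval₂, map_zero] at e1
    rw [Polynomial.aeval_def]
    refine Eq.trans ?_ e1
    congr 1
  exact ⟨hfin.1, hlow, hfin.2⟩

theorem part_four : ∃ e : ℕ → ℝ, e 3 = 1 ∧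
    (∀ c : ℝ, 1 / (8 * (Real.log 2) ^ 2) < c →
      ∀ᶠ n : ℕ in Filter.atTop, e n ≤ c * (Real.log n) ^ 2) ∧
    (∀ n : ℕ, 2 ≤ n → e n ≤ expo n) ∧
    (∀ n : ℕ, 2 ≤ n → ∀ θ κ c : ℝ, 0 ≤ θ → θ ≤ 2 → 0 < (n : ℝ) - 2 + θ → 0 < κ →
      e n / ((n : ℝ) - 2 + θ) < κ → ∃ ν M B₀ : ℝ, 0 < ν ∧ ∀ B R : ℝ, B₀ ≤ B → B ^ θ ≤ R →
        ((Violators n κ c B R).ncard : ℝ) ≤ M * B ^ (-ν) * ((Points n B R).ncard : ℝ)) ∧
    (∀ n : ℕ, 3 ≤ n → ∀ κ c : ℝ, 0 < κ → e n / ((n : ℝ) - 2) < κ →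
      ∃ ν M B₀ : ℝ, 0 < ν ∧ ∀ B : ℝ, B₀ ≤ B →
        ((ExcViolators n κ c B).ncard : ℝ) ≤ M * B ^ (-ν) * ((ExcUnits n B).ncard : ℝ)) := by
  obtain ⟨e, h1, h2, h3, h4⟩ := Pool.Agent.H37EU.viol_three
  have key : ∀ n : ℕ, 2 ≤ n → ∀ θ κ c : ℝ, 0 ≤ θ → θ ≤ 2 → 0 < (n : ℝ) - 2 + θ → 0 < κ →
      e n / ((n : ℝ) - 2 + θ) < κ → ∃ ν M B₀ : ℝ, 0 < ν ∧ ∀ B R : ℝ, B₀ ≤ B → B ^ θ ≤ R →
        ((Violators n κ c B R).ncard : ℝ) ≤ M * B ^ (-ν) * ((Points n B R).ncard : ℝ) := by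
    intro n hn θ κ c hθ0 hθ2 hs hκ0 hκ
    obtain ⟨ν, M, B₀, k1, k2⟩ := Pool.Agent.H37EU.few_viol hn (h4 n hn) c hθ0 hθ2 hs hκ0 hκ
    exact ⟨ν, M, B₀, k1, fun B R hB hR => (violators_le hn κ c B R).trans (k2 B R hB hR)⟩
  refine ⟨e, h1, h2, h3, key, fun n hn κ c hκ0 hκ => ?_⟩
  have hn3 : (3 : ℝ) ≤ n := by exact_mod_cast hn
  obtain ⟨ν, M, B₀, k1, k2⟩ := key n (by omega) 0 κ c le_rfl (by norm_num) (by linarith) hκ0
    (by rw [add_zero]; exact hκ)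
  refine ⟨ν, M, B₀, k1, fun B hB => ?_⟩
  rw [excUnits_eq (by omega)]
  exact (excViolators_le (by omega) κ c B).trans (k2 B 1 hB (by rw [Real.rpow_zero]))

theorem part_five (n : ℕ) (hn : 2 ≤ n) (κ c : ℝ) (hκ : κ * (2 * n - 2) < 1) :
    (ExcSatisfying n κ c).Finite := by
  refine (Pool.Agent.H37EU.low_finite hn (c := c) hκ).subset ?_
  rintro x ⟨K, hnf, t, h1, h2, h3, h4, h5⟩
  exact ⟨K, hnf, t, h1, h2, h3, h4.2.2.1, (exc_iff h4.1 h4.2.1).2 h4, h5⟩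

theorem part_six (n : ℕ) (hn : 2 ≤ n) (ε : ℝ) (hε : 0 < ε) :
    ∃ c X₀ : ℝ, 0 < c ∧ ∀ X : ℝ, X₀ ≤ X → (Fields n X).Finite ∧
      c * X ^ (((n : ℝ) - 2) / (2 * n - 2) - ε) ≤ ((Fields n X).ncard : ℝ) := by
  obtain ⟨c, X₀, h1, h2⟩ := Pool.Agent.H37EU.fields_low Pool.Agent.H37EU.t_DISC hn hε
  refine ⟨c, X₀, h1, fun X hX => ?_⟩
  have heq : Fields n X = Pool.Agent.H37EU.ExcF n X := by
    ext K
    constructor
    · rintro ⟨hnf, k1, k2, t, k3, k4⟩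
      exact ⟨hnf, k1, k2, t, k3, k4.2.2.1, (exc_iff k4.1 k4.2.1).2 k4⟩
    · rintro ⟨hnf, k1, k2, t, k3, k4, k5⟩
      obtain ⟨g0, g1⟩ := gen_ne hn k1 k3
      exact ⟨hnf, k1, k2, t, k3, (exc_iff g0 g1).1 k5⟩
  rw [heq]
  exact ⟨Pool.Agent.H37EU.excF_finite hn X, h2 X hX⟩

/-- **Main theorem.** (1) The conductor of `(x, 1 - x, -1)` is one if and only if `x` is an exceptional unit. (2) Let `n ≥ 2`
and `ε > 0`. For large `B` and `1 ≤ R ≤ B ^ 2` the number of the `x` of degree `n` with `H ≤ B`, `N ≤ R` is between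
`c R ^ n B ^ (n (n - 2))` and `C R ^ n B ^ (n (n - 2) + ε)`. (3) The number of exceptional units of degree `n` with `H ≤ B`
is between `c B ^ (n (n - 2))` and `C B ^ (n (n - 2))` for large `B`. (4) There is a function `e` with `e 3 = 1`, `e n ≤ expo n`
and `e n = O(log ^ 2 n)` such that for `0 ≤ θ ≤ 2`, `n - 2 + θ > 0`, `κ > e n / (n - 2 + θ)` and all `c`, for large `B` and all
`R ≥ B ^ θ`, at most the proportion `M B ^ (-ν)`, `ν > 0`, of the `x` of degree `n` with `H ≤ B`, `N ≤ R` violates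
`H ≤ exp(c) (δ N) ^ κ`; and for `n ≥ 3`, `κ > e n / (n - 2)` at most the proportion `M B ^ (-ν)` of the exceptional units of
degree `n` with `H ≤ B` violates `H ≤ exp(c) δ ^ κ`. (5) For `κ < 1 / (2 n - 2)` only finitely many exceptional units of
degree `n` satisfy it. (6) At least `c X ^ ((n - 2) / (2 n - 2) - ε)` number fields of degree `n` with `|D_K| ≤ X` are
generated by an exceptional unit, for large `X`. -/
theorem result :
    (∀ (K : Type) [Field K] [NumberField K] (t : K), t ≠ 0 → t ≠ 1 → (N t = 0 ↔ Exceptional t)) ∧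
    (∀ n : ℕ, 2 ≤ n → ∀ ε : ℝ, 0 < ε → ∃ c C B₀ : ℝ, 0 < c ∧
      ∀ B R : ℝ, B₀ ≤ B → 1 ≤ R → R ≤ B ^ 2 → (Points n B R).Finite ∧
        c * (R ^ n * B ^ (n * (n - 2))) ≤ ((Points n B R).ncard : ℝ) ∧
        ((Points n B R).ncard : ℝ) ≤ C * (R ^ n * B ^ (n * (n - 2))) * B ^ ε) ∧
    (∀ n : ℕ, 2 ≤ n → ∃ c C B₀ : ℝ, 0 < c ∧ ∀ B : ℝ, B₀ ≤ B → (ExcUnits n B).Finite ∧
      c * B ^ (n * (n - 2)) ≤ ((ExcUnits n B).ncard : ℝ) ∧
      ((ExcUnits n B).ncard : ℝ) ≤ C * B ^ (n * (n - 2))) ∧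
    (∃ e : ℕ → ℝ, e 3 = 1 ∧
      (∀ c : ℝ, 1 / (8 * (Real.log 2) ^ 2) < c →
        ∀ᶠ n : ℕ in Filter.atTop, e n ≤ c * (Real.log n) ^ 2) ∧
      (∀ n : ℕ, 2 ≤ n → e n ≤ expo n) ∧
      (∀ n : ℕ, 2 ≤ n → ∀ θ κ c : ℝ, 0 ≤ θ → θ ≤ 2 → 0 < (n : ℝ) - 2 + θ → 0 < κ →
        e n / ((n : ℝ) - 2 + θ) < κ → ∃ ν M B₀ : ℝ, 0 < ν ∧ ∀ B R : ℝ, B₀ ≤ B → B ^ θ ≤ R →
          ((Violators n κ c B R).ncard : ℝ) ≤ M * B ^ (-ν) * ((Points n B R).ncard : ℝ)) ∧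
      (∀ n : ℕ, 3 ≤ n → ∀ κ c : ℝ, 0 < κ → e n / ((n : ℝ) - 2) < κ →
        ∃ ν M B₀ : ℝ, 0 < ν ∧ ∀ B : ℝ, B₀ ≤ B →
          ((ExcViolators n κ c B).ncard : ℝ) ≤ M * B ^ (-ν) * ((ExcUnits n B).ncard : ℝ))) ∧
    (∀ n : ℕ, 2 ≤ n → ∀ κ c : ℝ, κ * (2 * n - 2) < 1 → (ExcSatisfying n κ c).Finite) ∧
    (∀ n : ℕ, 2 ≤ n → ∀ ε : ℝ, 0 < ε → ∃ c X₀ : ℝ, 0 < c ∧ ∀ X : ℝ, X₀ ≤ X →
      (Fields n X).Finite ∧
        c * X ^ (((n : ℝ) - 2) / (2 * n - 2) - ε) ≤ ((Fields n X).ncard : ℝ)) :=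
  ⟨fun _ _ _ _ h0 h1 => exc_iff h0 h1, part_two, part_three, part_four, part_five, part_six⟩

end Pool.Agent.Results.MP_6e34ef_nt.ExceptionalUnits
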