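import Pool.Agent.H83W.PolyDiv

/-!
# The uniform abc inequality for all numbers of degree `n` for which norms of polynomial values have a divisor in a short window

Let `K` be a number field of degree `n`, `x ∈ K`, `x ≠ 0, 1`, let `H`, `N` be the height and the conductor of the triple
`a + b = c`, `a = x`, `b = 1 - x`, `c = 1`, and `δ_K` the root discriminant. We consider the norms of the numbers
`F (x / (1 - x)) = G (a, b) / b ^ d` for polynomials `F` with integer coefficients, where `G` is the binary form of degree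
`d = deg F` which belongs to `F`. Let `J` be a finite set of such polynomials, `A ≥ 1` and `θ < 1`. We prove the uniform abc
inequality, with one exponent and one constant, for ALL number fields `K` of degree `n` and ALL such `x` for which the
product over `F ∈ J` of the numerators and denominators of these norms is divisible by an integer `m` from one of the windows
`|m - α b ^ k| ≤ (α b ^ k) ^ θ`, `k = 1, 2, …`, and which have `H ≤ m ^ A`. This holds for all `α > 0` outside a set of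
Hausdorff dimension zero; the same holds for the windows around `α ^ k`, and in general around the values `f_k(α)` of
starshaped functions, for all `α` outside a set of dimension at most `τ / (1 - θ)`, `τ` the exponent of convergence.

The starting files `UniformAbcWindows` and `StarshapedAbc` of this problem treat the `x` whose height is in the windows.
Here the height is not restricted to a thin set; it can be any number up to the power `m ^ A` of a divisor of the norms.
If `J` consists of `T` and `T + 1` the primes which divide `m` divide the conductor, and there is an elementary proof (the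
integers with small radical are thin); for other polynomials the primes which divide `m` are in general prime to the
conductor.

Proof. By the starting theorem `FewViolators` at most `B ^ (n e n / κ + ε)` numbers with `H ≤ B` violate the inequality.
The denominator of the norm of `F (x / (1 - x))` divides the `d`-th power of the norm of the denominator ideal of
`x / (1 - x)`, so that the numerators and the denominators of the norms are at most `C H ^ (n d)`, and their product has at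
most `H ^ ε` divisors. So the integers `m` which divide such a product for a violator with `H ≤ m ^ A` form a thin set of
exponent `A n e n / κ`.
-/

set_option autoImplicit false

namespace Pool.Agent.Results.MP_6e34ef_nt.NormsInWindows

open NumberField IsDedekindDomain Filter Topology Polynomial
open FewViolators (height conductor rootDisc expo Viol)
open StarshapedAbc (Starshaped ExpLe)

/-- The norm of the number `F (x / (1 - x))`. -/
noncomputable def normAt {K : Type} [Field K] [NumberField K] (x : K) (F : ℤ[X]) : ℚ :=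
  Algebra.norm ℚ (Polynomial.aeval (x / (1 - x)) F)

/-- The inequality `H ≤ exp (C) (δ_K N) ^ κ` for all numbers `x` of degree `n` with `H ≤ m ^ A` for which the norms of the
numbers `F (x / (1 - x))`, `F ∈ J`, are not zero and `m` divides the product of their numerators and denominators. -/
def Holds (n : ℕ) (κ C A : ℝ) (J : Finset ℤ[X]) (m : ℕ) : Prop :=
  ∀ (K : IntermediateField ℚ (AlgebraicClosure ℚ)) [NumberField K] (x : K),
    Module.finrank ℚ K = n → x ≠ 0 → x ≠ 1 → (∀ F ∈ J, normAt x F ≠ 0) →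
    m ∣ ∏ F ∈ J, (normAt x F).num.natAbs * (normAt x F).den →
    Real.exp (height ![x, 1 - x, -1]) ≤ (m : ℝ) ^ A →
      height ![x, 1 - x, -1] ≤ κ * (rootDisc K + conductor ![x, 1 - x, -1]) + C

lemma win {n : ℕ} (hn : 2 ≤ n) {κ e A : ℝ} (hκ : 0 < κ) (hA : 0 < A)
    (H : ∀ c δ : ℝ, 0 < δ → ∃ M : ℝ, ∀ B : ℝ, 1 ≤ B → (Viol n κ c B).Finite ∧
      ((Viol n κ c B).ncard : ℝ) ≤ M * B ^ ((n : ℝ) * e / κ + δ)) (J : Finset ℤ[X])
    {a : ℝ} {f : ℕ → ℝ → ℝ} {τ θ : ℝ} (hv : Starshaped a f) (hτ : 0 ≤ τ) (hE : ExpLe a f τ) (hθ : θ < 1) :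
    ∃ E : Set ℝ, dimH E ≤ ENNReal.ofReal ((A * (n * max e 0 / κ) + τ) / (1 - θ)) ∧
      ∀ α : ℝ, a < α → α ∉ E → ∀ c κ' : ℝ, ∃ k₀ : ℕ, ∀ k : ℕ, k₀ ≤ k → ∀ m : ℕ,
        |(m : ℝ) - f k α| ≤ κ' * (f k α) ^ θ → Holds n κ (-c) A J m := by
  have hall : ∀ i : ℕ, ∃ E : Set ℝ, dimH E ≤ ENNReal.ofReal ((A * (n * max e 0 / κ) + τ) / (1 - θ)) ∧
      ∀ α : ℝ, a < α → α ∉ E → ∀ κ' : ℝ, ∃ n0 : ℕ, ∀ k : ℕ, n0 ≤ k → ∀ m : ℕ,
        |(m : ℝ) - f k α| ≤ κ' * (f k α) ^ θ → 0 < m ∧ m ∉ Pool.Agent.H83W.PD.DivBad n κ (-(i : ℝ)) A J := fun i =>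
    Pool.Agent.R482.ST.star_nat (Pool.Agent.H83W.PD.DivBad n κ (-(i : ℝ)) A J) hv.1 hv.2 hE
      (mul_nonneg hA.le (div_nonneg (mul_nonneg (Nat.cast_nonneg _) (le_max_right _ _)) hκ.le)) hτ hθ
      (Pool.Agent.H83W.PD.thin hn hκ hA (H (-(i : ℝ))) J)
  choose G hG1 hG2 using hall
  refine ⟨⋃ i, G i, ?_, fun α hα hαE c κ' => ?_⟩
  · rw [dimH_iUnion]
    exact iSup_le hG1
  · obtain ⟨i, hi⟩ := exists_nat_ge c
    obtain ⟨k₀, hk⟩ := hG2 i α hα (fun h => hαE (Set.mem_iUnion.2 ⟨i, h⟩)) κ'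
    refine ⟨k₀, fun k hk1 m hm K hK x hd hx0 hx1 hne hdvd hht => ?_⟩
    by_contra hcon
    push Not at hcon
    refine (hk k hk1 m hm).2 ⟨⟨⟨K, hK⟩, x⟩, ⟨hd, hx0, hx1, ?_⟩, hht, hne, hdvd⟩
    show -(i : ℝ) + κ * (rootDisc K + conductor ![x, 1 - x, -1]) < height ![x, 1 - x, -1]
    linarith

/-- **Theorem.** Let `f` be starshaped functions on `(a, ∞)` (`f_k > 0` and `f_k(t) / t` nondecreasing, `a ≥ 0`) such that for
all `t > a` the exponent of convergence of the sequence `f_k(t)` is at most `τ ≥ 0`, and let `θ < 1`.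

(1) There is a function `e ≥ 0` with `e n ≤ expo n` for `n ≥ 2` (so `e 2 ≤ 1`, `e 3 ≤ 5 / 4`) and
`e n = O (log ^ 2 n)` such that for all `n ≥ 2`, `κ > 0`, `A > 0` and finite sets `J ⊂ ℤ[T]` there is a set `E` of
Hausdorff dimension at most `(A n (e n) / κ + τ) / (1 - θ)` such that for each `α > a` outside `E` and all `c`, `κ'`, for all
but finitely many `k` and all integers `m` with `|m - f_k(α)| ≤ κ' f_k(α) ^ θ`: ALL number fields `K` of degree `n` and ALL
`x ∈ K`, `x ≠ 0, 1`, with `H ≤ m ^ A` for which the norms of the `F (x / (1 - x))`, `F ∈ J`, are not zero and `m` divides the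
product of their numerators and denominators satisfy `log H ≤ κ (log δ_K + log N) - c`.

(2) There is a set `E` of dimension at most `τ / (1 - θ)` such that for each `α > a` outside `E` and ALL `n ≥ 2`, `J`,
`κ'`, `A` there are `κ` and `C` with `log H ≤ κ (log δ_K + log N) + C` for all these `x` and the integers `m` of all windows.

(3) The functions `v_k t` are starshaped on `(0, ∞)`, of exponent `τ` if `v > 0` has exponent of convergence at most `τ`; the
functions `t ^ (v_k)`, `v_k ≥ 1`, are starshaped on `(1, ∞)`, of exponent `0` if the sums of `exp (-s v_k)` converge for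
`s > 0`. -/
theorem result :
    (∃ e : ℕ → ℝ, (∀ n, 0 ≤ e n) ∧ (∀ n : ℕ, 2 ≤ n → e n ≤ expo n) ∧
      (∀ c : ℝ, 1 / (8 * (Real.log 2) ^ 2) < c → ∀ᶠ n : ℕ in Filter.atTop, e n ≤ c * (Real.log n) ^ 2) ∧
      ∀ (a : ℝ) (f : ℕ → ℝ → ℝ) (τ θ : ℝ), Starshaped a f → 0 ≤ τ → ExpLe a f τ → θ < 1 →
        ∀ n : ℕ, 2 ≤ n → ∀ κ A : ℝ, 0 < κ → 0 < A → ∀ J : Finset ℤ[X],
          ∃ E : Set ℝ, dimH E ≤ ENNReal.ofReal ((A * (n * e n / κ) + τ) / (1 - θ)) ∧
            ∀ α : ℝ, a < α → α ∉ E → ∀ c κ' : ℝ, ∃ k₀ : ℕ, ∀ k : ℕ, k₀ ≤ k → ∀ m : ℕ,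
              |(m : ℝ) - f k α| ≤ κ' * (f k α) ^ θ → Holds n κ (-c) A J m) ∧
    (∀ (a : ℝ) (f : ℕ → ℝ → ℝ) (τ θ : ℝ), Starshaped a f → 0 ≤ τ → ExpLe a f τ → θ < 1 →
        ∃ E : Set ℝ, dimH E ≤ ENNReal.ofReal (τ / (1 - θ)) ∧
          ∀ α : ℝ, a < α → α ∉ E → ∀ n : ℕ, 2 ≤ n → ∀ (J : Finset ℤ[X]) (κ' A : ℝ), ∃ κ C : ℝ, ∀ k m : ℕ,
              |(m : ℝ) - f k α| ≤ κ' * (f k α) ^ θ → Holds n κ C A J m) ∧
    (∀ (v : ℕ → ℝ) (τ : ℝ), (∀ n, 0 < v n) → (∀ t : ℝ, τ < t → Summable (fun n : ℕ => (v n) ^ (-t))) →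
      Starshaped 0 (fun n x => v n * x) ∧ ExpLe 0 (fun n x => v n * x) τ) ∧
    (∀ v : ℕ → ℝ, (∀ n, 1 ≤ v n) → (∀ t : ℝ, 0 < t → Summable fun n : ℕ => Real.exp (-(t * v n))) →
      Starshaped 1 (fun n x => x ^ (v n)) ∧ ExpLe 1 (fun n x => x ^ (v n)) 0) := by
  obtain ⟨e, he1, he2, he3⟩ := FewViolators.result.1
  have hexpo : ∀ n : ℕ, 0 ≤ expo n := fun n => by
    unfold expo
    positivity
  refine ⟨⟨fun n => max (e n) 0, fun n => le_max_right _ _, fun n hn => max_le (he2 n hn) (hexpo n),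
    fun c hc => ?_, fun a f τ θ hv hτ hE hθ n hn κ A hκ hA J =>
      win hn hκ hA (he3 n hn κ · · hκ ·) J hv hτ hE hθ⟩, fun a f τ θ hv hτ hE hθ => ?_,
    Pool.Agent.R482.ST.ex_mul, Pool.Agent.R482.ST.ex_pow⟩
  · have hc0 : 0 < c := lt_trans (by
      have := Real.log_pos (by norm_num : (1 : ℝ) < 2)
      positivity) hc
    filter_upwards [he1 c hc] with n hn
    exact max_le hn (by positivity)
  · haveI : Countable ℤ[X] := Cardinal.mk_le_aleph0_iff.1 (Polynomial.cardinalMk_le_max.trans (by simp))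
    have hall : ∀ (q : ℕ × ℕ × Finset ℤ[X]) (m : ℕ), ∃ E : Set ℝ,
        dimH E ≤ ENNReal.ofReal (((((q.2.1 : ℝ) + 1) * (((q.1 + 2 : ℕ) : ℝ) * max (e (q.1 + 2)) 0)) *
          (1 / ((m : ℝ) + 1)) + τ) / (1 - θ)) ∧
        ∀ α : ℝ, a < α → α ∉ E → ∀ c κ' : ℝ, ∃ k₀ : ℕ, ∀ k : ℕ, k₀ ≤ k → ∀ i : ℕ,
          |(i : ℝ) - f k α| ≤ κ' * (f k α) ^ θ → Holds (q.1 + 2) ((m : ℝ) + 1) (-c) ((q.2.1 : ℝ) + 1) q.2.2 i := by
      rintro ⟨n, A, J⟩ m
      have hm0 : (0 : ℝ) < (m : ℝ) + 1 := by positivity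
      obtain ⟨E, h1, h2⟩ := win (n := n + 2) (by omega) hm0 (by positivity : (0 : ℝ) < (A : ℝ) + 1)
        (he3 (n + 2) (by omega) ((m : ℝ) + 1) · · hm0 ·) J hv hτ hE hθ
      refine ⟨E, h1.trans (le_of_eq ?_), h2⟩
      congr 2
      ring
    choose G hG1 hG2 using hall
    refine ⟨⋃ q, ⋂ m, G q m, ?_, fun α hα hαE n hn J κ' A => ?_⟩
    · rw [dimH_iUnion]
      refine iSup_le fun q => ?_
      have hlim : Tendsto (fun m : ℕ => ENNReal.ofReal
          (((((q.2.1 : ℝ) + 1) * (((q.1 + 2 : ℕ) : ℝ) * max (e (q.1 + 2)) 0)) *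
          (1 / ((m : ℝ) + 1)) + τ) / (1 - θ))) atTop
          (𝓝 (ENNReal.ofReal (((((q.2.1 : ℝ) + 1) * (((q.1 + 2 : ℕ) : ℝ) * max (e (q.1 + 2)) 0)) *
          0 + τ) / (1 - θ)))) :=
        ENNReal.tendsto_ofReal (((tendsto_one_div_add_atTop_nhds_zero_nat.const_mul _).add_const τ).div_const (1 - θ))
      rw [mul_zero, zero_add] at hlim
      exact ge_of_tendsto' hlim fun m => (dimH_mono (Set.iInter_subset _ m)).trans (hG1 q m)
    · obtain ⟨n, rfl⟩ : ∃ m, n = m + 2 := ⟨n - 2, by omega⟩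
      obtain ⟨A', hA'⟩ := exists_nat_ge A
      have h1 : α ∉ ⋂ m, G (n, A', J) m := fun h => hαE (Set.mem_iUnion.2 ⟨(n, A', J), h⟩)
      rw [Set.mem_iInter] at h1
      push Not at h1
      obtain ⟨m, hm⟩ := h1
      obtain ⟨k₀, hk⟩ := hG2 (n, A', J) m α hα hm 0 κ'
      obtain ⟨C, hC0, hC⟩ : ∃ C : ℝ, 1 ≤ C ∧ ∀ k : ℕ, k < k₀ → f k α + κ' * (f k α) ^ θ ≤ C := by
        refine ⟨1 + ∑ k ∈ Finset.range k₀, |f k α + κ' * (f k α) ^ θ|, ?_, fun k hk => ?_⟩
        · have : 0 ≤ ∑ k ∈ Finset.range k₀, |f k α + κ' * (f k α) ^ θ| := Finset.sum_nonneg fun i _ => abs_nonneg _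
          linarith
        · have h2 := Finset.single_le_sum (f := fun k => |f k α + κ' * (f k α) ^ θ|) (fun i _ => abs_nonneg _)
            (Finset.mem_range.2 hk)
          have h3 := le_abs_self (f k α + κ' * (f k α) ^ θ)
          linarith
      refine ⟨(m : ℝ) + 1, C ^ ((A' : ℝ) + 1), fun k i hi K hK x hd hx0 hx1 hne hdvd hht => ?_⟩
      have hnn := UniformAbcWindows.nonneg ![x, 1 - x, -1]
      have hmul : 0 ≤ ((m : ℝ) + 1) * (rootDisc K + conductor ![x, 1 - x, -1]) := mul_nonneg (by positivity) hnn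
      have hCp : 0 ≤ C ^ ((A' : ℝ) + 1) := Real.rpow_nonneg (by linarith) _
      have hi1 : 1 ≤ i := by
        rcases Nat.eq_zero_or_pos i with h0 | h0
        · exfalso
          rw [h0, zero_dvd_iff, Finset.prod_eq_zero_iff] at hdvd
          obtain ⟨j, hj, h⟩ := hdvd
          rcases mul_eq_zero.1 h with h | h
          · rw [Int.natAbs_eq_zero, Rat.num_eq_zero] at h
            exact hne j hj h
          · exact (Rat.den_pos _).ne' h
        · exact h0
      have hi1' : (1 : ℝ) ≤ i := by exact_mod_cast hi1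
      have hht' : Real.exp (height ![x, 1 - x, -1]) ≤ (i : ℝ) ^ ((A' : ℝ) + 1) :=
        hht.trans (Real.rpow_le_rpow_of_exponent_le hi1' (by linarith))
      rcases Nat.lt_or_ge k k₀ with hlt | hge
      · have h3 : (i : ℝ) ≤ C := by
          have := (abs_le.1 hi).2
          have := hC k hlt
          linarith
        have h4 : Real.exp (height ![x, 1 - x, -1]) ≤ C ^ ((A' : ℝ) + 1) :=
          hht'.trans (Real.rpow_le_rpow (by linarith) h3 (by positivity))
        have h6 := Real.add_one_le_exp (height ![x, 1 - x, -1])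
        linarith
      · have h5 := hk k hge i hi K x hd hx0 hx1 hne hdvd hht'
        linarith

end Pool.Agent.Results.MP_6e34ef_nt.NormsInWindows
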